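import Mathlib

/-!
# The proportional choice number of `K_{n,m}` is asymptotic to `m / 2` for fixed `n`
-/

set_option autoImplicit false

namespace Pool.Agent.Results.MP_f66848_co.LimitHalf

open Finset Filter

section defs

variable {V : Type} (G : SimpleGraph V)

/-- The multiplicity `η_L(c)`: the number of vertices whose list contains `c`. -/
noncomputable def multiplicity (L : V → Finset ℕ) (c : ℕ) : ℕ := {v | c ∈ L v}.ncard

/-- `f` is a proportional `L`-colouring of `G` (for a `k`-assignment `L`): it is a proper colouring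
from the lists, and each colour `c` of the palette is used exactly `⌊η(c)/k⌋` or `⌈η(c)/k⌉`
times. -/
def IsProportionalColouring (k : ℕ) (L : V → Finset ℕ) (f : V → ℕ) : Prop :=
  (∀ v, f v ∈ L v) ∧ (∀ u v, G.Adj u v → f u ≠ f v) ∧
    ∀ c, (∃ v, c ∈ L v) → {v | f v = c}.ncard = ⌊(multiplicity L c : ℚ) / k⌋₊ ∨
      {v | f v = c}.ncard = ⌈(multiplicity L c : ℚ) / k⌉₊

/-- `G` is proportionally `k`-choosable. -/
def IsProportionallyChoosable (k : ℕ) : Prop :=
  ∀ L : V → Finset ℕ, (∀ v, (L v).card = k) → ∃ f, IsProportionalColouring G k L f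

/-- The proportional choice number: the least `k ≥ 1` such that `G` is proportionally
`k`-choosable. -/
noncomputable def propChoiceNumber : ℕ := sInf {k | 1 ≤ k ∧ IsProportionallyChoosable G k}

end defs

/-! ### A matching lemma -/

section matching

variable {W : Type} [Fintype W] [DecidableEq W]

theorem matching (P : Finset ℕ) (L : W → Finset ℕ) (lo : ℕ → Prop) [DecidablePred lo] (hi : ℕ → ℕ)
    (hlohi : ∀ c ∈ P, lo c → 1 ≤ hi c) (hLP : ∀ v, L v ⊆ P)
    (h1 : ∀ X : Finset W, X.card ≤ ∑ c ∈ X.biUnion L, hi c)
    (h2 : ∀ Y ⊆ P, (∀ c ∈ Y, lo c) → Y.card ≤ (univ.filter fun v => (L v ∩ Y).Nonempty).card) :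
    ∃ f : W → ℕ, (∀ v, f v ∈ L v) ∧ (∀ c ∈ P, lo c → ∃ v, f v = c) ∧
      ∀ c, (univ.filter fun v => f v = c).card ≤ hi c := by
  classical
  let copies : Finset ℕ → Finset (ℕ × ℕ) := fun S => S.biUnion fun c => {c} ×ˢ range (hi c)
  have hmem : ∀ S x, x ∈ copies S ↔ x.1 ∈ S ∧ x.2 < hi x.1 := by
    intro S x
    simp only [copies, mem_biUnion, mem_product, mem_singleton, mem_range]
    constructor
    · rintro ⟨c, hc, h3, h4⟩
      subst h3
      exact ⟨hc, h4⟩
    · rintro ⟨h3, h4⟩
      exact ⟨x.1, h3, rfl, h4⟩
  have hcard : ∀ S, (copies S).card = ∑ c ∈ S, hi c := by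
    intro S
    rw [card_biUnion]
    · refine sum_congr rfl fun c _ => ?_
      simp
    · intro c _ d _ hcd
      show Disjoint _ _
      rw [Finset.disjoint_left]
      intro x hx hy
      simp only [mem_product, mem_singleton] at hx hy
      exact hcd (hx.1.symm.trans hy.1)
  let T := ∑ c ∈ P, hi c
  have hT : Fintype.card W ≤ T := by
    refine (h1 univ).trans (sum_le_sum_of_subset ?_)
    intro c hc
    obtain ⟨v, _, hv⟩ := mem_biUnion.mp hc
    exact hLP v hv
  -- mandatory copies
  let mand : Finset (ℕ × ℕ) := (P.filter lo).image fun c => (c, 0)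
  let t : W ⊕ Fin (T - Fintype.card W) → Finset (ℕ × ℕ) := fun i => match i with
    | Sum.inl v => copies (L v)
    | Sum.inr _ => copies P \ mand
  have hsub : ∀ i, t i ⊆ copies P := by
    rintro (v | j)
    · intro x hx
      rw [hmem] at hx ⊢
      exact ⟨hLP v hx.1, hx.2⟩
    · exact sdiff_subset
  have hmand : mand ⊆ copies P := by
    intro x hx
    obtain ⟨c, hc, rfl⟩ := mem_image.mp hx
    obtain ⟨hc1, hc2⟩ := mem_filter.mp hc
    rw [hmem]
    exact ⟨hc1, hlohi c hc1 hc2⟩
  have hall : ∀ S : Finset (W ⊕ Fin (T - Fintype.card W)), S.card ≤ (S.biUnion t).card := by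
    intro S
    let X : Finset W := univ.filter fun v => Sum.inl v ∈ S
    let D : Finset (Fin (T - Fintype.card W)) := univ.filter fun j => Sum.inr j ∈ S
    have hScard : S.card ≤ X.card + D.card := by
      have : S ⊆ X.image Sum.inl ∪ D.image Sum.inr := by
        rintro (v | j) h
        · exact mem_union_left _ (mem_image_of_mem _ (mem_filter.mpr ⟨mem_univ _, h⟩))
        · exact mem_union_right _ (mem_image_of_mem _ (mem_filter.mpr ⟨mem_univ _, h⟩))
      refine (card_le_card this).trans ((card_union_le _ _).trans ?_)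
      exact Nat.add_le_add card_image_le card_image_le
    have hXsub : copies (X.biUnion L) ⊆ S.biUnion t := by
      intro x hx
      rw [hmem] at hx
      obtain ⟨v, hv, hxv⟩ := mem_biUnion.mp hx.1
      refine mem_biUnion.mpr ⟨Sum.inl v, (mem_filter.mp hv).2, ?_⟩
      show x ∈ copies (L v)
      rw [hmem]
      exact ⟨hxv, hx.2⟩
    rcases D.eq_empty_or_nonempty with hD | ⟨j, hj⟩
    · rw [hD, card_empty, add_zero] at hScard
      refine hScard.trans ((h1 X).trans ?_)
      rw [← hcard]
      exact card_le_card hXsub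
    · -- all optional copies are neighbours
      have hopt : copies P \ mand ⊆ S.biUnion t := by
        intro x hx
        exact mem_biUnion.mpr ⟨Sum.inr j, (mem_filter.mp hj).2, hx⟩
      let Y : Finset ℕ := (P.filter lo).filter fun c => c ∉ X.biUnion L
      have hY : Y.card ≤ (univ \ X).card := by
        refine (h2 Y ?_ ?_).trans (card_le_card ?_)
        · exact (filter_subset _ _).trans (filter_subset _ _)
        · intro c hc
          exact (mem_filter.mp (mem_filter.mp hc).1).2
        · intro v hv
          obtain ⟨c, hc⟩ := (mem_filter.mp hv).2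
          obtain ⟨hc1, hc2⟩ := mem_inter.mp hc
          refine mem_sdiff.mpr ⟨mem_univ _, fun hvX => ?_⟩
          exact (mem_filter.mp hc2).2 (mem_biUnion.mpr ⟨v, hvX, hc1⟩)
      have hcov : copies P ⊆ S.biUnion t ∪ Y.image fun c => (c, 0) := by
        intro x hx
        by_cases hxm : x ∈ mand
        · obtain ⟨c, hc, rfl⟩ := mem_image.mp hxm
          by_cases hcX : c ∈ X.biUnion L
          · apply mem_union_left
            apply hXsub
            rw [hmem]
            exact ⟨hcX, ((hmem _ _).mp hx).2⟩
          · exact mem_union_right _ (mem_image_of_mem _ (mem_filter.mpr ⟨hc, hcX⟩))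
        · exact mem_union_left _ (hopt (mem_sdiff.mpr ⟨hx, hxm⟩))
      have h5 : T ≤ (S.biUnion t).card + Y.card := by
        show ∑ c ∈ P, hi c ≤ _
        rw [← hcard]
        refine (card_le_card hcov).trans ((card_union_le _ _).trans ?_)
        exact Nat.add_le_add_left card_image_le _
      have h6 : (univ \ X).card + X.card = Fintype.card W := by
        rw [card_sdiff_add_card_eq_card (subset_univ X), card_univ]
      have h7 : D.card ≤ T - Fintype.card W := by
        refine (card_le_univ D).trans ?_
        rw [Fintype.card_fin]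
      omega
  obtain ⟨F, hF1, hF2⟩ := (Finset.all_card_le_biUnion_card_iff_exists_injective t).mp hall
  -- `F` is onto the copies of `P`
  have himg : univ.image F = copies P := by
    apply eq_of_subset_of_card_le
    · intro x hx
      obtain ⟨i, _, rfl⟩ := mem_image.mp hx
      exact hsub i (hF2 i)
    · rw [card_image_of_injective _ hF1, hcard, card_univ, Fintype.card_sum, Fintype.card_fin]
      show T ≤ _
      omega
  refine ⟨fun v => (F (Sum.inl v)).1, fun v => ((hmem _ _).mp (hF2 (Sum.inl v))).1,
    fun c hc hlo => ?_, fun c => ?_⟩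
  · have h3 : (c, 0) ∈ mand := mem_image_of_mem _ (mem_filter.mpr ⟨hc, hlo⟩)
    have h4 : (c, 0) ∈ univ.image F := by rw [himg]; exact hmand h3
    obtain ⟨i, _, hi'⟩ := mem_image.mp h4
    rcases i with v | j
    · exact ⟨v, by show (F (Sum.inl v)).1 = c; rw [hi']⟩
    · exfalso
      have h5 : F (Sum.inr j) ∈ copies P \ mand := hF2 (Sum.inr j)
      rw [hi'] at h5
      exact (mem_sdiff.mp h5).2 h3
  · have h3 : ((univ.filter fun v => (F (Sum.inl v)).1 = c).image fun v => F (Sum.inl v)) ⊆
        {c} ×ˢ range (hi c) := by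
      intro x hx
      obtain ⟨v, hv, rfl⟩ := mem_image.mp hx
      have h4 := (mem_filter.mp hv).2
      have h5 := ((hmem _ _).mp (hF2 (Sum.inl v))).2
      rw [mem_product, mem_singleton, mem_range]
      exact ⟨h4, by rw [← h4]; exact h5⟩
    have h4 := card_le_card h3
    rw [card_image_of_injective, card_product, card_singleton, card_range, one_mul] at h4
    · exact h4
    · intro u v huv
      exact Sum.inl_injective (hF1 huv)

end matching

/-! ### Elementary facts -/

theorem prop_ok (η k u : ℕ) (hη : 1 ≤ η) (h2 : η < 2 * k) (hlo : k ≤ η → 1 ≤ u)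
    (hhi : u ≤ if η ≤ k then 1 else 2) :
    u = ⌊(η : ℚ) / k⌋₊ ∨ u = ⌈(η : ℚ) / k⌉₊ := by
  have hk : 0 < k := by omega
  have hkq : (0 : ℚ) < k := by exact_mod_cast hk
  rw [Nat.floor_div_eq_div]
  rcases lt_trichotomy η k with h | h | h
  · rw [if_pos h.le] at hhi
    have hc : ⌈(η : ℚ) / k⌉₊ = 1 := by
      rw [Nat.ceil_eq_iff one_ne_zero]
      constructor
      · simp only [Nat.sub_self, Nat.cast_zero]
        exact div_pos (by exact_mod_cast hη) hkq
      · rw [div_le_iff₀ hkq]
        simp only [Nat.cast_one, one_mul]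
        exact_mod_cast h.le
    rw [hc, Nat.div_eq_of_lt h]
    omega
  · left
    rw [if_pos h.le] at hhi
    have := hlo h.ge
    rw [h, Nat.div_self hk]
    omega
  · rw [if_neg (by omega)] at hhi
    have := hlo h.le
    have hf : η / k = 1 := by
      rw [Nat.div_eq_iff hk]
      omega
    have hc : ⌈(η : ℚ) / k⌉₊ = 2 := by
      rw [Nat.ceil_eq_iff two_ne_zero]
      constructor
      · rw [lt_div_iff₀ hkq]
        have : (k : ℚ) < η := by exact_mod_cast h
        simpa using this
      · rw [div_le_iff₀ hkq]
        exact_mod_cast h2.le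
    rw [hf, hc]
    omega

section main

variable {n m k : ℕ}

/-- The multiplicity as the cardinality of a filter. -/
theorem multiplicity_eq {V : Type} [Fintype V] [DecidableEq V] (L : V → Finset ℕ) (c : ℕ) :
    multiplicity L c = (univ.filter fun v => c ∈ L v).card := by
  classical
  unfold multiplicity
  rw [← Set.ncard_coe_finset]
  congr 1
  ext v
  simp

theorem double_count {V : Type} [Fintype V] [DecidableEq V] (L : V → Finset ℕ) (Z : Finset ℕ) :
    ∑ c ∈ Z, multiplicity L c = ∑ v, (L v ∩ Z).card := by
  classical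
  have h1 : ∀ c, multiplicity L c = ∑ v, if c ∈ L v then 1 else 0 := by
    intro c
    rw [multiplicity_eq, card_filter]
  have h2 : ∀ v, (L v ∩ Z).card = ∑ c ∈ Z, if c ∈ L v then 1 else 0 := by
    intro v
    rw [← card_filter, inter_comm]
    congr 1
  simp only [h1, h2]
  exact sum_comm

/-- The upper bound on the number of uses: `⌈η/k⌉` when `1 ≤ η < 2k`. -/
def cap (k η : ℕ) : ℕ := if η ≤ k then 1 else 2

theorem le_cap_mul {k η : ℕ} (h : η ≤ 2 * k) : η ≤ k * cap k η := by
  unfold cap
  split_ifs <;> omega

theorem one_le_cap (k η : ℕ) : 1 ≤ cap k η := by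
  unfold cap
  split_ifs <;> omega

theorem multiplicity_le {V : Type} [Fintype V] [DecidableEq V] (L : V → Finset ℕ) (c : ℕ) :
    multiplicity L c ≤ Fintype.card V := by
  rw [multiplicity_eq]
  exact card_le_univ _

/-- Matching all vertices, after deleting a set `R v` of at most `r v` colours from each list, with
`∑ r v < k`. -/
theorem match_all {V : Type} [Fintype V] [DecidableEq V] (hk : 0 < k)
    (hV : Fintype.card V ≤ 2 * k) (L : V → Finset ℕ) (hL : ∀ v, (L v).card = k)
    (R : V → Finset ℕ) (hR : ∑ v, (R v).card < k) :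
    ∃ f : V → ℕ, (∀ v, f v ∈ L v \ R v) ∧
      (∀ c, k ≤ multiplicity L c → ∃ v, f v = c) ∧
      ∀ c, (univ.filter fun v => f v = c).card ≤ cap k (multiplicity L c) := by
  classical
  obtain ⟨f, hf1, hf2, hf3⟩ := matching (univ.biUnion L) (fun v => L v \ R v)
    (fun c => k ≤ multiplicity L c) (fun c => cap k (multiplicity L c))
    (fun c _ _ => one_le_cap _ _)
    (fun v => sdiff_subset.trans (subset_biUnion_of_mem L (mem_univ v)))
    (by
      intro X
      let Z := X.biUnion fun v => L v \ R v
      have h1 : ∑ c ∈ Z, multiplicity L c ≤ k * ∑ c ∈ Z, cap k (multiplicity L c) := by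
        rw [mul_sum]
        exact sum_le_sum fun c _ => le_cap_mul ((multiplicity_le L c).trans hV)
      have h2 : ∑ v ∈ X, (L v ∩ Z).card ≤ ∑ c ∈ Z, multiplicity L c := by
        rw [double_count]
        exact sum_le_sum_of_subset (subset_univ X)
      have h3 : X.card * k ≤ ∑ v ∈ X, (L v ∩ Z).card + ∑ v, (R v).card := by
        calc X.card * k = ∑ v ∈ X, k := by rw [sum_const, smul_eq_mul]
          _ ≤ ∑ v ∈ X, ((L v ∩ Z).card + (R v).card) := by
              refine sum_le_sum fun v hv => ?_
              rw [← hL v]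
              have : L v ⊆ (L v ∩ Z) ∪ R v := by
                intro c hc
                by_cases hcR : c ∈ R v
                · exact mem_union_right _ hcR
                · refine mem_union_left _ (mem_inter.mpr ⟨hc, ?_⟩)
                  exact mem_biUnion.mpr ⟨v, hv, mem_sdiff.mpr ⟨hc, hcR⟩⟩
              exact (card_le_card this).trans (card_union_le _ _)
          _ = ∑ v ∈ X, (L v ∩ Z).card + ∑ v ∈ X, (R v).card := sum_add_distrib
          _ ≤ _ := Nat.add_le_add_left (sum_le_sum_of_subset (subset_univ X)) _
      show X.card ≤ ∑ c ∈ Z, cap k (multiplicity L c)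
      by_contra hcon
      push Not at hcon
      have h4 : (∑ c ∈ Z, cap k (multiplicity L c) + 1) * k ≤ X.card * k :=
        Nat.mul_le_mul_right _ hcon
      nlinarith)
    (by
      intro Y hY hlo
      let W := univ.filter fun v => ((L v \ R v) ∩ Y).Nonempty
      have h1 : Y.card * k ≤ ∑ c ∈ Y, multiplicity L c := by
        rw [← smul_eq_mul, ← sum_const]
        exact sum_le_sum fun c hc => hlo c hc
      rw [double_count] at h1
      have h2 : ∑ v, (L v ∩ Y).card ≤ ∑ v, ((if ((L v \ R v) ∩ Y).Nonempty then k else 0)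
          + (R v).card) := by
        refine sum_le_sum fun v _ => ?_
        split_ifs with h
        · refine le_trans ?_ (Nat.le_add_right _ _)
          rw [← hL v]
          exact card_le_card inter_subset_left
        · rw [zero_add]
          apply card_le_card
          intro c hc
          by_contra hcR
          apply h
          obtain ⟨hc1, hc2⟩ := mem_inter.mp hc
          exact ⟨c, mem_inter.mpr ⟨mem_sdiff.mpr ⟨hc1, hcR⟩, hc2⟩⟩
      rw [sum_add_distrib] at h2
      have h3 : ∑ v, (if ((L v \ R v) ∩ Y).Nonempty then k else 0) = W.card * k := by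
        rw [← sum_filter, sum_const, smul_eq_mul]
      rw [h3] at h2
      show Y.card ≤ W.card
      by_contra hcon
      push Not at hcon
      have h4 : (W.card + 1) * k ≤ Y.card * k := Nat.mul_le_mul_right _ hcon
      nlinarith)
  refine ⟨f, hf1, fun c hc => ?_, hf3⟩
  refine hf2 c ?_ hc
  have h1 : 0 < multiplicity L c := lt_of_lt_of_le hk hc
  rw [multiplicity_eq, card_pos] at h1
  obtain ⟨v, hv⟩ := h1
  exact mem_biUnion.mpr ⟨v, mem_univ v, (mem_filter.mp hv).2⟩

/-- Putting the pieces together. -/
theorem finish {V : Type} [Fintype V] [DecidableEq V] (G : SimpleGraph V)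
    (hV : Fintype.card V < 2 * k) (L : V → Finset ℕ) (f : V → ℕ) (h1 : ∀ v, f v ∈ L v)
    (h2 : ∀ u v, G.Adj u v → f u ≠ f v)
    (h3 : ∀ c, k ≤ multiplicity L c → ∃ v, f v = c)
    (h4 : ∀ c, (univ.filter fun v => f v = c).card ≤ cap k (multiplicity L c)) :
    IsProportionalColouring G k L f := by
  classical
  refine ⟨h1, h2, fun c hc => ?_⟩
  have h5 : {v | f v = c}.ncard = (univ.filter fun v => f v = c).card := by
    rw [← Set.ncard_coe_finset]
    congr 1
    ext v
    simp
  rw [h5]
  apply prop_ok
  · obtain ⟨v, hv⟩ := hc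
    rw [multiplicity_eq]
    exact card_pos.mpr ⟨v, mem_filter.mpr ⟨mem_univ _, hv⟩⟩
  · exact (multiplicity_le L c).trans_lt hV
  · intro h
    obtain ⟨v, hv⟩ := h3 c h
    exact card_pos.mpr ⟨v, mem_filter.mpr ⟨mem_univ _, hv⟩⟩
  · exact h4 c

theorem choosable (hn : 1 ≤ n) (h1 : m + 2 * n ≤ 2 * k)
    (h2 : n * n * m ≤ (k - n * n) * (2 * k - n - m)) :
    IsProportionallyChoosable (completeBipartiteGraph (Fin n) (Fin m)) k := by
  classical
  intro L hL
  have hk : 0 < k := by omega
  have hV : Fintype.card (Fin n ⊕ Fin m) < 2 * k := by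
    rw [Fintype.card_sum, Fintype.card_fin, Fintype.card_fin]
    omega
  let P : Finset ℕ := univ.biUnion L
  let H : Finset ℕ := P.filter fun c => k < multiplicity L c
  have hHmem : ∀ c, k < multiplicity L c → c ∈ H := by
    intro c hc
    refine mem_filter.mpr ⟨?_, hc⟩
    have h1 : 0 < multiplicity L c := lt_of_lt_of_le hk hc.le
    rw [multiplicity_eq, card_pos] at h1
    obtain ⟨v, hv⟩ := h1
    exact mem_biUnion.mpr ⟨v, mem_univ v, (mem_filter.mp hv).2⟩
  by_cases hcase : n * H.card < k
  · -- Case 2: few heavy colours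
    obtain ⟨f, hf1, hf2, hf3⟩ := match_all (k := k) hk hV.le L hL
      (fun v => if v.isLeft then H else ∅) (by
        rw [Fintype.sum_sum_type]
        simpa using hcase)
    refine ⟨f, finish _ hV L f (fun v => (mem_sdiff.mp (hf1 v)).1) ?_ hf2 hf3⟩
    have key : ∀ (a : Fin n) (b : Fin m), f (Sum.inl a) ≠ f (Sum.inr b) := by
      intro a b hab
      have h5 := hf1 (Sum.inl a)
      have h6 : f (Sum.inl a) ∉ H := by
        have := (mem_sdiff.mp h5).2
        simpa using this
      have h7 : multiplicity L (f (Sum.inl a)) ≤ k := by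
        by_contra h
        exact h6 (hHmem _ (not_le.mp h))
      have h8 := hf3 (f (Sum.inl a))
      unfold cap at h8
      rw [if_pos h7] at h8
      rw [card_le_one] at h8
      have := h8 (Sum.inl a) (mem_filter.mpr ⟨mem_univ _, rfl⟩) (Sum.inr b)
        (mem_filter.mpr ⟨mem_univ _, hab.symm⟩)
      cases this
    rintro (a | b) (a' | b') hadj
    · simp [completeBipartiteGraph] at hadj
    · exact key a b'
    · exact (key a' b).symm
    · simp [completeBipartiteGraph] at hadj
  · -- Case 1: many heavy colours
    push Not at hcase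
    obtain ⟨g, hg1, hg2, hg3⟩ := match_all (k := k) hk hV.le L hL (fun _ => ∅) (by simpa using hk)
    have hg1' : ∀ v, g v ∈ L v := fun v => (mem_sdiff.mp (hg1 v)).1
    let CA : Finset ℕ := univ.image fun a : Fin n => g (Sum.inl a)
    have hCA : CA.card ≤ n := by
      refine card_image_le.trans ?_
      simp
    have hmain : (n * m : ℕ) ≤ (H.card - n) * (2 * k - n - m) := by
      have h5 : k - n * n ≤ n * (H.card - n) := by
        rw [Nat.mul_sub]
        omega
      have h6 : (k - n * n) * (2 * k - n - m) ≤ n * (H.card - n) * (2 * k - n - m) :=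
        Nat.mul_le_mul_right _ h5
      have h7 : n * (n * m) ≤ n * ((H.card - n) * (2 * k - n - m)) := by
        calc n * (n * m) = n * n * m := by ring
          _ ≤ _ := h2
          _ ≤ _ := h6
          _ = _ := by ring
      exact Nat.le_of_mul_le_mul_left h7 hn
    obtain ⟨fB, hB1, hB2, hB3⟩ := matching (W := Fin m) (P \ CA)
      (fun b => L (Sum.inr b) \ CA)
      (fun c => k ≤ multiplicity L c) (fun c => cap k (multiplicity L c))
      (fun c _ _ => one_le_cap _ _)
      (fun b => sdiff_subset_sdiff (subset_biUnion_of_mem L (mem_univ _)) (Subset.refl _))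
      (by
        intro X
        rcases le_or_gt X.card (k - n) with hX | hX
        · rcases X.eq_empty_or_nonempty with rfl | ⟨b, hb⟩
          · simp
          · have h5 : k - n ≤ (L (Sum.inr b) \ CA).card := by
              have := le_card_sdiff CA (L (Sum.inr b))
              rw [hL] at this
              omega
            have h6 : L (Sum.inr b) \ CA ⊆ X.biUnion fun b => L (Sum.inr b) \ CA := by
              intro c hc
              exact mem_biUnion.mpr ⟨b, hb, hc⟩
            calc X.card ≤ (L (Sum.inr b) \ CA).card := hX.trans h5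
              _ ≤ (X.biUnion fun b => L (Sum.inr b) \ CA).card := card_le_card h6
              _ = ∑ c ∈ X.biUnion fun b => L (Sum.inr b) \ CA, 1 := by simp
              _ ≤ _ := sum_le_sum fun c _ => one_le_cap _ _
        · let Z := X.biUnion fun b => L (Sum.inr b) \ CA
          have hHZ : H \ CA ⊆ Z := by
            intro c hc
            obtain ⟨hc1, hc2⟩ := mem_sdiff.mp hc
            have h5 : k < multiplicity L c := (mem_filter.mp hc1).2
            by_contra hcZ
            have h6 : ∀ b ∈ X, c ∉ L (Sum.inr b) := by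
              intro b hb hcb
              exact hcZ (mem_biUnion.mpr ⟨b, hb, mem_sdiff.mpr ⟨hcb, hc2⟩⟩)
            have h7 : multiplicity L c + X.card ≤ n + m := by
              rw [multiplicity_eq]
              have h8 : (univ.filter fun v => c ∈ L v).card +
                  (X.image (Sum.inr : Fin m → Fin n ⊕ Fin m)).card ≤
                  Fintype.card (Fin n ⊕ Fin m) := by
                rw [← card_union_of_disjoint]
                · exact card_le_univ _
                · rw [Finset.disjoint_left]
                  intro v hv hv'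
                  obtain ⟨b, hb, rfl⟩ := mem_image.mp hv'
                  exact h6 b hb (mem_filter.mp hv).2
              rw [card_image_of_injective _ Sum.inr_injective, Fintype.card_sum, Fintype.card_fin,
                Fintype.card_fin] at h8
              exact h8
            omega
          show X.card ≤ ∑ c ∈ Z, cap k (multiplicity L c)
          have h5 : ∑ c ∈ Z, multiplicity L c + (H \ CA).card * (2 * k - n - m) ≤
              k * ∑ c ∈ Z, cap k (multiplicity L c) := by
            have h6 : (H \ CA).card * (2 * k - n - m) =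
                ∑ c ∈ Z, if c ∈ H \ CA then (2 * k - n - m) else 0 := by
              rw [← sum_filter, sum_const, smul_eq_mul]
              congr 2
              ext c
              rw [mem_filter]
              exact ⟨fun h => ⟨hHZ h, h⟩, fun h => h.2⟩
            rw [h6, ← sum_add_distrib, mul_sum]
            refine sum_le_sum fun c _ => ?_
            have h7 := multiplicity_le L c
            rw [Fintype.card_sum, Fintype.card_fin, Fintype.card_fin] at h7
            split_ifs with h
            · have hcH : c ∈ H := (mem_sdiff.mp h).1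
              have h8 : k < multiplicity L c := (mem_filter.mp hcH).2
              unfold cap
              rw [if_neg (by omega)]
              omega
            · rw [add_zero]
              exact le_cap_mul (by omega)
          have h6 : (k - n) * X.card ≤ ∑ c ∈ Z, multiplicity L c := by
            rw [double_count, Fintype.sum_sum_type]
            calc (k - n) * X.card = ∑ b ∈ X, (k - n) := by rw [sum_const, smul_eq_mul, mul_comm]
              _ ≤ ∑ b ∈ X, (L (Sum.inr b) ∩ Z).card := by
                  refine sum_le_sum fun b hb => ?_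
                  have h7 : L (Sum.inr b) \ CA ⊆ L (Sum.inr b) ∩ Z := by
                    intro c hc
                    exact mem_inter.mpr ⟨(mem_sdiff.mp hc).1, mem_biUnion.mpr ⟨b, hb, hc⟩⟩
                  have h8 := card_le_card h7
                  have h9 := le_card_sdiff CA (L (Sum.inr b))
                  rw [hL] at h9
                  omega
              _ ≤ ∑ b, (L (Sum.inr b) ∩ Z).card := sum_le_sum_of_subset (subset_univ X)
              _ ≤ _ := Nat.le_add_left _ _
          have h7 : H.card - n ≤ (H \ CA).card := by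
            have := le_card_sdiff CA H
            omega
          have h8 : n * m ≤ (H \ CA).card * (2 * k - n - m) :=
            hmain.trans (Nat.mul_le_mul_right _ h7)
          have h9 : X.card ≤ m := by
            have := card_le_univ X
            rwa [Fintype.card_fin] at this
          have h10 : k * X.card ≤ k * ∑ c ∈ Z, cap k (multiplicity L c) := by
            have h11 : k * X.card ≤ (k - n) * X.card + n * m := by
              have h12 : n * X.card ≤ n * m := Nat.mul_le_mul_left _ h9
              have h13 : k * X.card ≤ ((k - n) + n) * X.card :=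
                Nat.mul_le_mul_right _ (by omega)
              rw [Nat.add_mul] at h13
              omega
            omega
          exact Nat.le_of_mul_le_mul_left h10 hk)
      (by
        intro Y hY hlo
        have h5 : ∀ c ∈ Y, ∃ b : Fin m, g (Sum.inr b) = c := by
          intro c hc
          obtain ⟨v, hv⟩ := hg2 c (hlo c hc)
          rcases v with a | b
          · exfalso
            exact (mem_sdiff.mp (hY hc)).2 (mem_image.mpr ⟨a, mem_univ _, hv⟩)
          · exact ⟨b, hv⟩
        have h6 : Y ⊆ (univ.filter fun b : Fin m =>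
            ((L (Sum.inr b) \ CA) ∩ Y).Nonempty).image fun b => g (Sum.inr b) := by
          intro c hc
          obtain ⟨b, hb⟩ := h5 c hc
          refine mem_image.mpr ⟨b, mem_filter.mpr ⟨mem_univ _, ⟨c, ?_⟩⟩, hb⟩
          refine mem_inter.mpr ⟨mem_sdiff.mpr ⟨?_, (mem_sdiff.mp (hY hc)).2⟩, hc⟩
          rw [← hb]
          exact hg1' _
        exact (card_le_card h6).trans card_image_le)
    let f : Fin n ⊕ Fin m → ℕ := Sum.elim (fun a => g (Sum.inl a)) fB
    have hfA : ∀ a, f (Sum.inl a) ∈ CA := fun a => mem_image.mpr ⟨a, mem_univ _, rfl⟩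
    have hfB : ∀ b, f (Sum.inr b) ∉ CA := fun b => (mem_sdiff.mp (hB1 b)).2
    refine ⟨f, finish _ hV L f ?_ ?_ ?_ ?_⟩
    · rintro (a | b)
      · exact hg1' _
      · exact (mem_sdiff.mp (hB1 b)).1
    · rintro (a | b) (a' | b') hadj
      · simp [completeBipartiteGraph] at hadj
      · intro h
        exact hfB b' (h ▸ hfA a)
      · intro h
        exact hfB b (h ▸ hfA a')
      · simp [completeBipartiteGraph] at hadj
    · intro c hc
      by_cases hcA : c ∈ CA
      · obtain ⟨a, _, ha⟩ := mem_image.mp hcA
        exact ⟨Sum.inl a, ha⟩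
      · have hcP : c ∈ P \ CA := by
          refine mem_sdiff.mpr ⟨?_, hcA⟩
          obtain ⟨v, hv⟩ := hg2 c hc
          exact mem_biUnion.mpr ⟨v, mem_univ v, hv ▸ hg1' v⟩
        obtain ⟨b, hb⟩ := hB2 c hcP hc
        exact ⟨Sum.inr b, hb⟩
    · intro c
      by_cases hcA : c ∈ CA
      · refine (card_le_card ?_).trans (hg3 c)
        rintro (a | b) hv
        · exact mem_filter.mpr ⟨mem_univ _, (mem_filter.mp hv).2⟩
        · exfalso
          have := (mem_filter.mp hv).2
          exact hfB b (this ▸ hcA)
      · refine le_trans ?_ (hB3 c)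
        have h5 : (univ.filter fun v => f v = c) ⊆
            (univ.filter fun b => fB b = c).image Sum.inr := by
          rintro (a | b) hv
          · exfalso
            have := (mem_filter.mp hv).2
            exact hcA (this ▸ hfA a)
          · exact mem_image.mpr ⟨b, mem_filter.mpr ⟨mem_univ _, (mem_filter.mp hv).2⟩, rfl⟩
        exact (card_le_card h5).trans card_image_le

/-- The lower bound. -/
theorem not_choosable (hn : 1 ≤ n) (hk : 1 ≤ k) (hkm : 2 * k ≤ m + 1) :
    ¬ IsProportionallyChoosable (completeBipartiteGraph (Fin n) (Fin m)) k := by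
  classical
  intro h
  obtain ⟨n, rfl⟩ : ∃ n', n = n' + 1 := ⟨n - 1, by omega⟩
  let L : Fin (n + 1) ⊕ Fin m → Finset ℕ := fun v => match v with
    | Sum.inl a => Ico (a.val * k) (a.val * k + k)
    | Sum.inr _ => range k
  obtain ⟨f, hf1, hf2, hf3⟩ := h L (by
    rintro (a | b)
    · show (Ico _ _).card = k
      simp
    · show (range k).card = k
      simp)
  obtain ⟨c, hfc⟩ : ∃ c, c = f (Sum.inl 0) := ⟨_, rfl⟩
  have hcL : c ∈ L (Sum.inl 0) := by rw [hfc]; exact hf1 (Sum.inl 0)
  have hc : c < k := by
    have h5 : c ∈ Ico ((0 : Fin (n + 1)).val * k) ((0 : Fin (n + 1)).val * k + k) := hcL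
    rw [mem_Ico] at h5
    simpa using h5.2
  have hη : m + 1 ≤ multiplicity L c := by
    rw [multiplicity_eq]
    have h5 : insert (Sum.inl 0) ((univ : Finset (Fin m)).image Sum.inr) ⊆
        (univ.filter fun v => c ∈ L v) := by
      intro v hv
      rcases mem_insert.mp hv with rfl | hv
      · exact mem_filter.mpr ⟨mem_univ _, hcL⟩
      · obtain ⟨b, _, rfl⟩ := mem_image.mp hv
        exact mem_filter.mpr ⟨mem_univ _, mem_range.mpr hc⟩
    have h6 := card_le_card h5
    rw [card_insert_of_notMem (by simp), card_image_of_injective _ Sum.inr_injective,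
      card_univ, Fintype.card_fin] at h6
    exact h6
  have huse : {v | f v = c} = {Sum.inl 0} := by
    ext v
    rw [Set.mem_ofPred_eq, Set.mem_singleton_iff]
    constructor
    · intro hv
      rcases v with a | b
      · have h5 : f (Sum.inl a) ∈ Ico (a.val * k) (a.val * k + k) := hf1 (Sum.inl a)
        rw [hv, mem_Ico] at h5
        have h6 : a.val * k < 1 * k := by omega
        have h7 : a.val < 1 := Nat.lt_of_mul_lt_mul_right h6
        congr 1
        apply Fin.ext
        show a.val = 0
        omega
      · exfalso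
        have h5 := hf2 (Sum.inl 0) (Sum.inr b) (by simp [completeBipartiteGraph])
        exact h5 (hfc.symm.trans hv.symm)
    · rintro rfl
      exact hfc.symm
  have h5 := hf3 c ⟨Sum.inl 0, hcL⟩
  rw [huse, Set.ncard_singleton] at h5
  have hkq : (0 : ℚ) < k := by exact_mod_cast hk
  have h6 : 2 ≤ ⌊(multiplicity L c : ℚ) / k⌋₊ := by
    rw [Nat.floor_div_eq_div, Nat.le_div_iff_mul_le hk]
    omega
  have h7 := Nat.floor_le_ceil ((multiplicity L c : ℚ) / k)
  omega

/-- Two-sided bound for the proportional choice number of `K_{n,m}`. -/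
theorem bounds (hn : 1 ≤ n) (m : ℕ) :
    m + 2 ≤ 2 * propChoiceNumber (completeBipartiteGraph (Fin n) (Fin m)) ∧
      2 * propChoiceNumber (completeBipartiteGraph (Fin n) (Fin m)) ≤ m + 2 * n ^ 2 + n + 1 := by
  obtain ⟨k, hk1, hk2⟩ : ∃ k, m + 2 * n ^ 2 + n ≤ 2 * k ∧ 2 * k ≤ m + 2 * n ^ 2 + n + 1 :=
    ⟨(m + 2 * n ^ 2 + n + 1) / 2, by omega, by omega⟩
  have hn2 : n ≤ n ^ 2 := Nat.le_self_pow two_ne_zero n
  have hch : IsProportionallyChoosable (completeBipartiteGraph (Fin n) (Fin m)) k := by
    refine choosable hn (by omega) ?_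
    have h1 : m ≤ 2 * (k - n * n) := by
      rw [pow_two] at hk1
      omega
    have h2 : 2 * (n * n) ≤ 2 * k - n - m := by
      rw [pow_two] at hk1
      omega
    have h3 := Nat.mul_le_mul h1 h2
    nlinarith
  have hmem : k ∈ {k | 1 ≤ k ∧
      IsProportionallyChoosable (completeBipartiteGraph (Fin n) (Fin m)) k} := ⟨by omega, hch⟩
  constructor
  · have h1 := Nat.sInf_mem ⟨k, hmem⟩
    by_contra hcon
    exact not_choosable hn h1.1 (by unfold propChoiceNumber at hcon; omega) h1.2
  · have h1 : propChoiceNumber (completeBipartiteGraph (Fin n) (Fin m)) ≤ k := Nat.sInf_le hmem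
    omega

end main

/-- **Theorem.** For all `n ≥ 1` and all `m`, `m/2 + 1 ≤ χ_pc(K_{n,m}) ≤ m/2 + n² + (n+1)/2`; in
particular, for every fixed `n ≥ 1`, `χ_pc(K_{n,m}) / m → 1/2` as `m → ∞`. -/
theorem result :
    (∀ n m : ℕ, 1 ≤ n →
      IsProportionallyChoosable (completeBipartiteGraph (Fin n) (Fin m))
        (propChoiceNumber (completeBipartiteGraph (Fin n) (Fin m))) ∧
      m + 2 ≤ 2 * propChoiceNumber (completeBipartiteGraph (Fin n) (Fin m)) ∧
      2 * propChoiceNumber (completeBipartiteGraph (Fin n) (Fin m)) ≤ m + 2 * n ^ 2 + n + 1) ∧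
    ∀ n : ℕ, 1 ≤ n →
      Tendsto (fun m : ℕ =>
        (propChoiceNumber (completeBipartiteGraph (Fin n) (Fin m)) : ℝ) / m) atTop (nhds (1 / 2)) := by
  have hb : ∀ n m : ℕ, 1 ≤ n →
      m + 2 ≤ 2 * propChoiceNumber (completeBipartiteGraph (Fin n) (Fin m)) ∧
      2 * propChoiceNumber (completeBipartiteGraph (Fin n) (Fin m)) ≤ m + 2 * n ^ 2 + n + 1 :=
    fun n m hn => bounds hn m
  refine ⟨fun n m hn => ⟨?_, hb n m hn⟩, fun n hn => ?_⟩
  · -- the infimum is attained
    have h1 := (hb n m hn).1
    have h2 : ({k | 1 ≤ k ∧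
        IsProportionallyChoosable (completeBipartiteGraph (Fin n) (Fin m)) k} : Set ℕ).Nonempty := by
      apply Nat.nonempty_of_pos_sInf
      unfold propChoiceNumber at h1
      omega
    exact (Nat.sInf_mem h2).2
  · have h0 : Tendsto (fun m : ℕ => (1 / 2 : ℝ) + ((2 * n ^ 2 + n + 1 : ℕ) : ℝ) / m) atTop
        (nhds (1 / 2 + 0)) :=
      tendsto_const_nhds.add (tendsto_const_div_atTop_nhds_zero_nat _)
    rw [add_zero] at h0
    refine tendsto_of_tendsto_of_tendsto_of_le_of_le' tendsto_const_nhds h0 ?_ ?_
    · filter_upwards [eventually_gt_atTop 0] with m hm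
      have hm' : (0 : ℝ) < m := by exact_mod_cast hm
      rw [le_div_iff₀ hm']
      have h1 : ((m + 2 : ℕ) : ℝ) ≤
          ((2 * propChoiceNumber (completeBipartiteGraph (Fin n) (Fin m)) : ℕ) : ℝ) := by
        exact_mod_cast (hb n m hn).1
      push_cast at h1
      linarith
    · filter_upwards [eventually_gt_atTop 0] with m hm
      have hm' : (0 : ℝ) < m := by exact_mod_cast hm
      have h1 : ((2 * propChoiceNumber (completeBipartiteGraph (Fin n) (Fin m)) : ℕ) : ℝ) ≤
          ((m + 2 * n ^ 2 + n + 1 : ℕ) : ℝ) := by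
        exact_mod_cast (hb n m hn).2
      have h3 : ((m + 2 * n ^ 2 + n + 1 : ℕ) : ℝ) = m + ((2 * n ^ 2 + n + 1 : ℕ) : ℝ) := by
        push_cast
        ring
      have h2 : (0 : ℝ) ≤ ((2 * n ^ 2 + n + 1 : ℕ) : ℝ) := Nat.cast_nonneg _
      rw [div_le_iff₀ hm', add_mul, div_mul_cancel₀ _ hm'.ne']
      rw [h3] at h1
      push_cast at h1 h2 ⊢
      linarith

end Pool.Agent.Results.MP_f66848_co.LimitHalf
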